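import Mathlib
import Pool.Agent.Helper189.OD.Main

universe u

namespace Pool.Agent.Results.MP_fa2194_al.DivisibleEmbedding

/-- Every ordered group `G` (total order invariant under left and right multiplication) having an
abelian normal subgroup `A` with nilpotent quotient `G ⧸ A` admits an order-embedding into a
divisible ordered group. -/
theorem result (G : Type u) [Group G] [LinearOrder G] [MulLeftMono G] [MulRightMono G]
    (A : Subgroup G) [A.Normal] (hA : ∀ a ∈ A, ∀ b ∈ A, a * b = b * a)
    (hnil : Group.IsNilpotent (G ⧸ A)) :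
    ∃ (H : Type u) (_ : Group H) (_ : LinearOrder H) (_ : MulLeftMono H) (_ : MulRightMono H)
      (φ : G →* H), Function.Injective φ ∧ (∀ a b : G, a ≤ b ↔ φ a ≤ φ b) ∧
      ∀ (h : H) (n : ℕ), 1 ≤ n → ∃ x : H, x ^ n = h :=
  OD.main A inferInstance hA hnil

end Pool.Agent.Results.MP_fa2194_al.DivisibleEmbedding
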